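import Pool.Agent.helper83.ORE.SpecDE

/-!
# Project ore (MP_561ff4_al), row E2R: order five from a product of two transvections
-/

set_option autoImplicit false

namespace Pool.Agent.ORE

open Module Pool.Agent.GS

/-- two different vectors with `Q = 1` are independent -/
private theorem E2R_li {F V : Type} [Field F] [AddCommGroup V] [Module F V]
    (Q : QuadraticForm F V) (h2 : (2 : F) = 0) {a b : V} (ha : Q a = 1) (hb : Q b = 1)
    (hab : a ≠ b) : LinearIndependent F ![a, b] := by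
  rw [LinearIndependent.pair_iff]
  intro s t h
  have key : ∀ (u v : V) (s t : F), Q u = 1 → Q v = 1 → u ≠ v → s • u + t • v = 0 → t = 0 := by
    intro u v s t hu hv huv h
    by_contra ht
    have e1 : v = (-(t⁻¹ * s)) • u := by
      have e2 : t • v = -(s • u) := by
        rw [eq_neg_iff_add_eq_zero, add_comm]
        exact h
      calc v = t⁻¹ • (t • v) := by rw [smul_smul, inv_mul_cancel₀ ht, one_smul]
        _ = (-(t⁻¹ * s)) • u := by rw [e2, smul_neg, smul_smul, neg_smul]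
    obtain ⟨l, hl⟩ : ∃ l : F, l = -(t⁻¹ * s) := ⟨_, rfl⟩
    rw [← hl] at e1
    have e3 : l ^ 2 = 1 := by
      rw [e1, Q_smul, hu, mul_one] at hv
      exact hv
    have e4 : (l - 1) ^ 2 = 0 := by linear_combination e3 + (1 - l) * h2
    have e5 : l = 1 := by
      have := pow_eq_zero_iff (two_ne_zero) |>.1 e4
      linear_combination this
    rw [e5, one_smul] at e1
    exact huv e1.symm
  have ht := key a b s t ha hb hab h
  have hs := key b a t s hb ha hab.symm (by rw [add_comm]; exact h)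
  exact ⟨hs, ht⟩

/-- E2R (order five from a product of two transvections) -/
theorem E2R (epq : EPQ_stmt) (en5 : EN5_stmt) (eph : EPH_stmt) : E2R_stmt := by
  intro F V _ _ _ _ _ Q h2 hNd hdim hRO hWP y a b ha hb hab hG
  obtain ⟨e, he⟩ : ∃ e : F, pb Q a b = e := ⟨_, rfl⟩
  have hli := E2R_li Q h2 ha hb hab
  -- the prescribed products
  obtain ⟨α₁, α₂, β₁, β₂, hα, hβ⟩ : ∃ α₁ α₂ β₁ β₂ : F,
      ((e = 0 ∧ α₁ = 1 ∧ β₁ = 1 ∧ α₂ = 1 ∧ β₂ = 0) ∨
        (e ≠ 0 ∧ α₁ = 1 + e + e⁻¹ ∧ β₂ = 1 + e + e⁻¹ ∧ β₁ = e⁻¹ ∧ α₂ = e⁻¹)) ∧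
      (e = 0 → α₂ ≠ β₂) := by
    by_cases h0 : e = 0
    · exact ⟨1, 1, 1, 0, Or.inl ⟨h0, rfl, rfl, rfl, rfl⟩, fun _ => one_ne_zero⟩
    · exact ⟨1 + e + e⁻¹, e⁻¹, e⁻¹, 1 + e + e⁻¹, Or.inr ⟨h0, rfl, rfl, rfl, rfl⟩,
        fun h => absurd h h0⟩
  obtain ⟨c, hc1, hc2, hc3⟩ := (epq Q h2 hNd 2 ![a, b] hli ![α₁, α₂] 1).2 (by omega)
  have hac : pb Q a c = α₁ := hc1 0
  have hbc : pb Q b c = α₂ := hc1 1
  have hli3 : LinearIndependent F (Fin.snoc (α := fun _ => V) ![a, b] c) :=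
    hli.finSnoc hc3
  obtain ⟨d, hd1, hd2⟩ := (epq Q h2 hNd 3 _ hli3 ![β₁, β₂, e] 1).1 (by omega)
  have had : pb Q a d = β₁ := hd1 0
  have hbd : pb Q b d = β₂ := hd1 1
  have hcd : pb Q c d = e := hd1 2
  have hcned : c ≠ d := by
    rintro rfl
    by_cases h0 : e = 0
    · exact hβ h0 (hbc.symm.trans hbd)
    · apply h0
      rw [← hcd, pb_self2 h2]
  have hlicd := E2R_li Q h2 hc2 hd2 hcned
  obtain ⟨g, hg, hga, hgb⟩ := hWP a b c d hli hlicd (ha.trans hc2.symm) (hb.trans hd2.symm)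
    (he.trans hcd.symm)
  have hG2 : Gq Q y 2 (rq Q c * rq Q d) := by
    have h1 := hG.conj hg
    have e1 : g * (rq Q a * rq Q b) * g⁻¹ = rq Q c * rq Q d := by
      have h3 := rq_conj_mem (OmQ_le Q hg) a
      have h4 := rq_conj_mem (OmQ_le Q hg) b
      rw [hga] at h3
      rw [hgb] at h4
      rw [← h3, ← h4]
      group
    rwa [e1] at h1
  have q0 : ∀ {x : V}, Q x = 1 → Q x ≠ 0 := fun hx => by rw [hx]; exact one_ne_zero
  have hm1 : rq Q a * rq Q b ∈ OmQ Q := hRO a b (q0 ha) (q0 hb)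
  have hm2 : rq Q c * rq Q d ∈ OmQ Q := hRO c d (q0 hc2) (q0 hd2)
  refine ⟨rq Q a * rq Q b * (rq Q c * rq Q d), (OmQ Q).mul_mem hm1 hm2,
    hG.mul hG2 (OmQ_le Q hm1).1, ?_⟩
  refine en5 Q h2 hNd _ (OmQ_le Q ((OmQ Q).mul_mem hm1 hm2)) a ?_ ?_
  · rintro rfl
    rw [Q_zero] at ha
    exact zero_ne_one ha
  · refine eph Q h2 a b c d e ha hb hc2 hd2 he hcd ?_ _ (by rw [mul_assoc (rq Q a * rq Q b)])
    rw [hac, had, hbc, hbd]
    exact hα

end Pool.Agent.ORE
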